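import Pool.Agent.W279.TriS.Defs

/-! SA-CRT: large sets of different types meet. -/

set_option autoImplicit false

namespace Pool.Agent.W12.SA

open Pool.Agent.W279.TriS

theorem main : Pool.Agent.W279.TriS.StmtCrt := by
  intro V hV q hq hp A hA
  classical
  have : Fintype V := Fintype.ofFinite V
  have hex : ∀ v, ∃ N c : ℕ, q v ≠ 0 → ∀ k, k ≡ c [MOD q v ^ N] → k ∈ A v := by
    intro v
    by_cases h : q v = 0
    · exact ⟨0, 0, fun hn => absurd h hn⟩
    · have := hA v
      rw [Big, if_neg h] at this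
      obtain ⟨N, c, hc⟩ := this
      exact ⟨N, c, fun _ => hc⟩
  choose N c hc using hex
  obtain ⟨m, hm⟩ : ∃ m : V → ℕ, m = fun v => if q v = 0 then 1 else q v ^ N v := ⟨_, rfl⟩
  have hm0 : ∀ v, m v ≠ 0 := by
    intro v
    rw [hm]
    by_cases h : q v = 0
    · simp [h]
    · simp [h]
  have hcop : Set.Pairwise (↑(Finset.univ : Finset V)) (Function.onFun Nat.Coprime m) := by
    intro v _ w _ hvw
    rw [Function.onFun, hm]
    simp only
    by_cases h : q v = 0
    · rw [if_pos h]
      exact Nat.coprime_one_left _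
    · by_cases h' : q w = 0
      · rw [if_pos h']
        exact Nat.coprime_one_right _
      · rw [if_neg h, if_neg h']
        apply Nat.Coprime.pow
        rw [Nat.coprime_primes ((hp v).resolve_left h) ((hp w).resolve_left h')]
        exact fun e => hvw (hq e)
  obtain ⟨k0, hk0⟩ := Nat.chineseRemainderOfFinset c m Finset.univ (fun i _ => hm0 i) hcop
  have hk0' : ∀ v, k0 ≡ c v [MOD m v] := fun v => hk0 v (Finset.mem_univ v)
  have hfin : ∀ k, k ≡ k0 [MOD ∏ v, m v] → ∀ v, q v ≠ 0 → k ∈ A v := by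
    intro k hk v hv
    apply hc v hv
    have h1 : k ≡ k0 [MOD m v] := hk.of_dvd (Finset.dvd_prod_of_mem m (Finset.mem_univ v))
    have h2 := h1.trans (hk0' v)
    rw [hm] at h2
    simp only [if_neg hv] at h2
    exact h2
  by_cases h0 : ∃ v0, q v0 = 0
  · obtain ⟨v0, hv0⟩ := h0
    have hB := hA v0
    rw [Big, if_pos hv0] at hB
    obtain ⟨k, hk, hkc⟩ := hB (∏ v, m v) k0 (Finset.prod_ne_zero_iff.mpr fun v _ => hm0 v)
    refine ⟨k, fun v => ?_⟩
    by_cases hv : v = v0
    · rw [hv]; exact hk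
    · exact hfin k hkc v (fun e => hv (hq (e.trans hv0.symm)))
  · push Not at h0
    exact ⟨k0, fun v => hfin k0 rfl v (h0 v)⟩

end Pool.Agent.W12.SA
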